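import Pool.Agent.H828R2.SS.XMain
import Pool.Agent.H828R2.SS.XRays
import Pool.Agent.H828R2.SS.XComp

/-!
# Plane continua with a star-shaped bounded complementary component contain a square
-/

open Set

namespace Pool.Agent.Results.MP_42173d_gt.StarShapedComponent

/-- Let `K` be a compact plane set (for instance a continuum) and `O` a point off `K` such that the
component of `O` in the complement of `K` is bounded and star-shaped about `O`.  Then `K` contains
the vertices of a nondegenerate square. -/
theorem result (K : Set ℂ) (hK : IsCompact K) (O : ℂ) (hO : O ∉ K)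
    (hb : Bornology.IsBounded (connectedComponentIn Kᶜ O))
    (hs : StarConvex ℝ O (connectedComponentIn Kᶜ O)) :
    ∃ z v : ℂ, v ≠ 0 ∧ z + v ∈ K ∧ z + Complex.I * v ∈ K ∧ z - v ∈ K ∧
      z - Complex.I * v ∈ K := by
  have hopen : IsOpen (connectedComponentIn Kᶜ O) :=
    hK.isClosed.isOpen_compl.connectedComponentIn
  have hmem : O ∈ connectedComponentIn Kᶜ O := mem_connectedComponentIn hO
  obtain ⟨m, hm, h1⟩ := Metric.isOpen_iff.mp hopen O hmem
  obtain ⟨M0, h20⟩ := hb.subset_closedBall O
  set M := max m M0 with hMdef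
  have hmM : m ≤ M := le_max_left _ _
  have hM : 0 < M := lt_of_lt_of_le hm hmM
  have h2 : connectedComponentIn Kᶜ O ⊆ Metric.closedBall O M :=
    h20.trans (Metric.closedBall_subset_closedBall (le_max_right _ _))
  obtain ⟨k1, k2, k3, k4, k5⟩ := H828SS.frontier_comp K O hK.isClosed m M hm h1 h2 hs
  obtain ⟨r1, r2, r3⟩ := H828SS.rays_of_starK _ O m M hm k1 k2 k3 k4
  obtain ⟨z, w, hw, a, b, c, d⟩ := H828SS.star_weak_expl m M hm hmM _ O r1 r2 r3
  refine ⟨z, w, ?_, k5 a, k5 b, k5 c, k5 d⟩
  rintro rfl
  rw [norm_zero] at hw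
  have : 0 < m ^ 3 / (5 * M ^ 2) := by positivity
  linarith

end Pool.Agent.Results.MP_42173d_gt.StarShapedComponent
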